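import Pool.Agent.H689.SX.Rand

/-!
# The crossing number of graphs of bounded degree is hard to approximate (small set expansion)

The reduction. Let `H` be a `d`-regular multigraph on `N` vertices, `s = δ N`. The walk on
`(V(H) × Q)^R` with `R ≈ k / δ` moves every coordinate along a random edge of `H` (keeping its
label), resamples it with probability `1 / b`, and permutes the coordinates at random. If all sets
of `s` vertices of `H` expand then every balanced cut of this walk has measure at least
`const / √b` (L1 Poincaré inequality on product spaces, exchangeability, decoding of influential
coordinates). If some `S` of size `s` has expansion at most `η` then the label of the only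
coordinate in `S` gives a partition into `|Q|` small classes cut by few steps. The vertices are then
replaced by expanders of the size of their degree, which makes all degrees at most 33. Crossing
numbers are compared through edge separators of drawings and through drawings made from the
partition.
-/

set_option autoImplicit false

namespace Pool.Agent.Results.MP_8a730c_lc.BoundedDegreeSSE

open Pool.Agent.NPC Pool.Agent.NPC.H604 Pool.Agent.TH694.CR Pool.Agent.H689.SX
open Pool.Agent.H801.Ecc (Regular)

/-- **The crossing number of graphs of maximum degree at most `33` is hard to approximate within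
every constant factor, under the small set expansion hypothesis.**

(1) For every `c` there is an `η` such that, for all `δ`, the gap problem of small set expansion
with parameters `η` and `δ` is reduced in (deterministic) polynomial time to the gap problem
`cr G ≤ t` against `cr G > c * t` for graphs of maximum degree at most `33`.

(2) Hence, under the small set expansion hypothesis of Raghavendra and Steurer (the gap problem is
`NP`-hard), this gap problem for the crossing number is `NP`-hard, for every `c`.

(3), (4) If the gap problem of small set expansion has no polynomial-time algorithm (no randomised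
one), then there is no polynomial-time (randomised polynomial-time) approximation of the crossing
number within any constant factor on the graphs of maximum degree at most `33`. -/
theorem result :
    (∀ c : ℝ, ∃ η : ℝ, 0 < η ∧ ∀ δ : ℝ, 0 < δ → ∃ f : List Bool → List Bool, PolyTime f ∧
      ∀ (N : ℕ) (E : List (ℕ × ℕ)) (d s : ℕ), 1 ≤ d → 1 ≤ s → Regular N E d → (s : ℝ) = δ * N →
        ∃ (n t : ℕ) (G : SimpleGraph (Fin n)), f (bits (N, E, s)) = bits (adjMat G, t) ∧
          (∀ v, (G.neighborSet v).ncard ≤ 33) ∧ (YesI η N E d s → cr G ≤ t) ∧
          (NoI η N E d s → c * t < cr G)) ∧
    (SSEHyp → ∀ (c : ℝ) (L : Set (List Bool)), InNP L →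
      ∃ (n t : List Bool → ℕ) (G : ∀ x, SimpleGraph (Fin (n x))),
        PolyTime (fun x => bits (adjMat (G x), t x)) ∧
        (∀ x v, ((G x).neighborSet v).ncard ≤ 33) ∧
        (∀ x ∈ L, cr (G x) ≤ t x) ∧ ∀ x ∉ L, c * t x < cr (G x)) ∧
    (SSEHypPoly → ∀ c : ℝ, ¬ ∃ A : List Bool → List Bool, PolyTime A ∧ Approximates 33 c A) ∧
    (SSEHypRand → ∀ (c : ℝ) (p : Polynomial ℕ),
      ¬ ∃ A : List Bool → List Bool, PolyTime A ∧ RandApproximates 33 c p A) :=
  ⟨karp, np_hard, no_algorithm, no_rand_algorithm⟩

end Pool.Agent.Results.MP_8a730c_lc.BoundedDegreeSSE
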